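import Pool.Agent.Q180.CY.Tents

/-!
# The cocycle: hitting and discreteness
-/

namespace Pool.Agent.Q180.CY

open Set Filter Topology

lemma ivt_nat (h : ℕ → ℝ) {δ C : ℝ} (hδ : 0 ≤ δ) (hs : ∀ i, |h (i + 1) - h i| ≤ δ)
    (h0 : h 0 ≤ C) : ∀ n, C ≤ h n → ∃ i ≤ n, |h i - C| ≤ δ := by
  intro n
  induction n with
  | zero =>
    intro hn
    refine ⟨0, le_rfl, ?_⟩
    have : h 0 = C := le_antisymm h0 hn
    rw [this]; simpa using hδ
  | succ n ih =>
    intro hn
    by_cases hc : C ≤ h n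
    · obtain ⟨i, hi, h1⟩ := ih hc
      exact ⟨i, by omega, h1⟩
    · push Not at hc
      refine ⟨n + 1, le_rfl, ?_⟩
      have := abs_le.1 (hs n)
      rw [abs_le]
      constructor <;> linarith [this.1, this.2]

lemma ivt_int (g : ℤ → ℝ) {δ C : ℝ} (hδ : 0 ≤ δ) (hg : ∀ m m' : ℤ, |g m - g m'| ≤ δ * |(m : ℝ) - m'|)
    {m1 m2 : ℤ} {M : ℝ} (hm1 : |(m1 : ℝ)| ≤ M) (hm2 : |(m2 : ℝ)| ≤ M) (h1 : g m1 ≤ C)
    (h2 : C ≤ g m2) : ∃ m : ℤ, |(m : ℝ)| ≤ M ∧ |g m - C| ≤ δ := by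
  rw [abs_le] at hm1 hm2
  rcases le_total m1 m2 with hle | hle
  · obtain ⟨n, rfl⟩ := Int.le.dest hle
    obtain ⟨i, hi, h3⟩ := ivt_nat (fun i : ℕ => g (m1 + i)) hδ (C := C) (fun i => by
      have := hg (m1 + ((i + 1 : ℕ) : ℤ)) (m1 + i)
      push_cast at this
      simpa using this) (by simpa using h1) n h2
    refine ⟨m1 + i, ?_, h3⟩
    have hi' : (i : ℝ) ≤ n := by exact_mod_cast hi
    have hi0 : (0 : ℝ) ≤ i := Nat.cast_nonneg i
    push_cast at hm2 ⊢
    rw [abs_le]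
    constructor <;> linarith [hm1.1, hm2.2]
  · obtain ⟨n, rfl⟩ := Int.le.dest hle
    obtain ⟨i, hi, h3⟩ := ivt_nat (fun i : ℕ => g (m2 + n - i)) hδ (C := C) (fun i => by
      have := hg (m2 + n - ((i + 1 : ℕ) : ℤ)) (m2 + n - i)
      push_cast at this
      have e : (m2 : ℝ) + n - (i + 1) - (m2 + n - i) = -1 := by ring
      rw [e] at this
      simpa using this) (by simpa using h1) n (by simpa using h2)
    refine ⟨m2 + n - i, ?_, h3⟩
    have hi' : (i : ℝ) ≤ n := by exact_mod_cast hi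
    have hi0 : (0 : ℝ) ≤ i := Nat.cast_nonneg i
    push_cast at hm1 ⊢
    rw [abs_le]
    constructor <;> linarith [hm1.2, hm2.1]

namespace Par

variable (P : Par) {b : ℤ_[2]}

lemma sigma_le (k : ℕ) : P.σ (k + 1) ≤ (1 / 2) ^ (k + 40) := by
  have h1 := P.hδ k
  have h2 := P.Q_one k
  have h3 := mul_le_mul_of_nonneg_left h2 (P.hσ (k + 1)).le
  linarith

lemma sigma_summable : Summable P.σ := by
  rw [← summable_nat_add_iff 1]
  apply Summable.of_nonneg_of_le (fun k => (P.hσ (k + 1)).le) (fun k => P.sigma_le k)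
  have : Summable fun k : ℕ => (1 / 2 : ℝ) ^ 40 * (1 / 2) ^ k :=
    (summable_geometric_of_lt_one (by norm_num) (by norm_num)).mul_left _
  refine this.congr fun k => ?_
  rw [← pow_add, add_comm]

lemma Q_mono : Monotone P.Q := by
  intro i j hij
  rw [P.hQ, P.hQ]
  exact pow_le_pow_right₀ (by norm_num) (P.hn.monotone hij)

variable (b)

/-- the cocycle -/
noncomputable def S (x : ℤ_[2]) (m : ℤ) : ℝ := ∑' k, (P.f b k (x + m) - P.f b k x)

lemma term_summable (x : ℤ_[2]) (m : ℤ) : Summable fun k => P.f b k (x + m) - P.f b k x := by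
  apply Summable.of_norm_bounded (g := fun k => 2 * P.σ k * |(m : ℝ)|)
  · exact (P.sigma_summable.mul_left 2).mul_right _
  · intro k
    exact P.f_lip b k x m

lemma S_zero (x : ℤ_[2]) : P.S b x 0 = 0 := by simp [S]

lemma S_add (x : ℤ_[2]) (m m' : ℤ) : P.S b x (m + m') = P.S b x m + P.S b (x + m) m' := by
  unfold S
  rw [← (P.term_summable b x m).tsum_add (P.term_summable b (x + m) m')]
  apply tsum_congr
  intro k
  have e : x + ((m + m' : ℤ) : ℤ_[2]) = x + m + m' := by push_cast; ring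
  rw [e]
  ring

lemma S_refl (x : ℤ_[2]) (m : ℤ) : P.S b (b - x) (-m) = - P.S b x m := by
  unfold S
  rw [← tsum_neg]
  apply tsum_congr
  intro k
  have e : b - x + ((-m : ℤ) : ℤ_[2]) = b - (x + m) := by push_cast; ring
  rw [e, P.f_refl, P.f_refl]
  ring

lemma f_continuous (k : ℕ) : Continuous (P.f b k) := by
  have h1 : Continuous (P.τ k) := by
    unfold τ dd
    have : Continuous fun x : ℤ_[2] => ((u (P.n (k + 1)) x : ℤ) : ℝ) :=
      (continuous_of_discreteTopology (f := fun z : ℤ => (z : ℝ))).comp (u_continuous _)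
    exact continuous_const.max (continuous_const.sub (continuous_const.mul this.abs))
  unfold f
  exact h1.sub (h1.comp (continuous_id.sub continuous_const))

lemma S_continuous : Continuous fun x => P.S b x 1 := by
  unfold S
  apply continuous_tsum (u := fun k => 2 * P.σ k * |((1 : ℤ) : ℝ)|)
  · intro k
    exact ((P.f_continuous b k).comp (continuous_id.add continuous_const)).sub (P.f_continuous b k)
  · exact (P.sigma_summable.mul_left 2).mul_right _
  · intro k x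
    exact P.f_lip b k x 1

variable {b}

/-- avoiding the two tents of `f j` and prescribing the residue modulo `2 ^ n j` -/
lemma avoid (hb : 3 * b = -1) (j : ℕ) (x y : ℤ_[2]) (m : ℤ) :
    ∃ m' : ℤ, |(m' : ℝ) - m| ≤ 8193 * P.Q j ∧ (2:ℤ_[2]) ^ P.n j ∣ x + m' - y ∧
      P.f b j (x + m') = 0 := by
  set a : ℤ := u (P.n j) (y - x - m) with ha
  have hQ0 := P.Qpos j
  have hQQ := P.hQQ j
  have ha1 : |(a : ℝ)| ≤ P.Q j / 2 := by
    have := u_le (P.n j) (y - x - m)
    rw [← ha] at this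
    have h2 : ((2 * |a| : ℤ) : ℝ) ≤ ((2 ^ P.n j : ℤ) : ℝ) := by exact_mod_cast this
    rw [P.cast_pow] at h2
    push_cast at h2
    linarith
  have ha2 : (2:ℤ_[2]) ^ P.n j ∣ x + ((m + a : ℤ) : ℤ_[2]) - y := by
    have := dvd_neg.2 (u_dvd (P.n j) (y - x - m))
    rw [← ha] at this
    have e : -(y - x - m - (a : ℤ_[2])) = x + ((m + a : ℤ) : ℤ_[2]) - y := by push_cast; ring
    rwa [e] at this
  have ha3 : (2:ℤ_[2]) ^ P.n j ∣ x + ((m + a + 8192 * 2 ^ P.n j : ℤ) : ℤ_[2]) - y := by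
    have := dvd_add ha2 (Dvd.intro_left (8192 : ℤ_[2]) (rfl : 8192 * (2:ℤ_[2]) ^ P.n j = _))
    have e : x + ((m + a : ℤ) : ℤ_[2]) - y + 8192 * (2:ℤ_[2]) ^ P.n j =
      x + ((m + a + 8192 * 2 ^ P.n j : ℤ) : ℤ_[2]) - y := by push_cast; ring
    rwa [e] at this
  have hc : (((8192 * 2 ^ P.n j : ℤ)) : ℝ) = 8192 * P.Q j := by
    rw [Int.cast_mul, P.cast_pow]; norm_num
  -- leaving a tent
  have key : ∀ z : ℤ_[2], P.dd j z < 4096 * P.Q j →
      4096 * P.Q j ≤ P.dd j (z + ((8192 * 2 ^ P.n j : ℤ) : ℤ_[2])) ∧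
      ∀ w : ℤ_[2], P.Q (j + 1) ≤ 4 * P.dd j w →
        4096 * P.Q j ≤ P.dd j (z + ((8192 * 2 ^ P.n j : ℤ) : ℤ_[2]) + w) := by
    intro z hz
    have hz' : |(u (P.n (j + 1)) z : ℝ)| < 4096 * P.Q j := hz
    rw [abs_lt] at hz'
    have hpos : 0 ≤ (u (P.n (j + 1)) z : ℝ) + 8192 * P.Q j := by linarith [hz'.1]
    have h1 : P.dd j (z + ((8192 * 2 ^ P.n j : ℤ) : ℤ_[2])) =
        (u (P.n (j + 1)) z : ℝ) + 8192 * P.Q j := by
      rw [P.dd_add_of, hc, abs_of_nonneg hpos]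
      rw [hc, abs_of_nonneg hpos]
      linarith [hz'.2]
    refine ⟨by rw [h1]; linarith [hz'.1], ?_⟩
    intro w hw
    have h2 := P.dd_sub j (z + ((8192 * 2 ^ P.n j : ℤ) : ℤ_[2]) + w)
      (z + ((8192 * 2 ^ P.n j : ℤ) : ℤ_[2]))
    rw [add_sub_cancel_left, h1] at h2
    linarith [hz'.2]
  have hbb := P.dd_b hb j
  have hbb' : P.Q (j + 1) ≤ 4 * P.dd j (-b) := by rw [P.dd_neg]; exact hbb
  by_cases h1 : P.dd j (x + ((m + a : ℤ) : ℤ_[2])) < 4096 * P.Q j
  · obtain ⟨h2, h3⟩ := key _ h1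
    refine ⟨m + a + 8192 * 2 ^ P.n j, ?_, ha3, ?_⟩
    · rw [Int.cast_add, hc]
      push_cast
      have e : (m : ℝ) + a + 8192 * P.Q j - m = a + 8192 * P.Q j := by ring
      rw [e]
      have := abs_add_le (a : ℝ) (8192 * P.Q j)
      rw [abs_of_pos (show (0:ℝ) < 8192 * P.Q j by linarith)] at this
      linarith
    · have e : x + ((m + a + 8192 * 2 ^ P.n j : ℤ) : ℤ_[2]) =
        x + ((m + a : ℤ) : ℤ_[2]) + ((8192 * 2 ^ P.n j : ℤ) : ℤ_[2]) := by push_cast; ring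
      rw [e]
      unfold f
      rw [P.τ_far j h2, sub_eq_add_neg (x + ((m + a : ℤ) : ℤ_[2]) + _) b, P.τ_far j (h3 (-b) hbb'),
        sub_zero]
  · by_cases h1' : P.dd j (x + ((m + a : ℤ) : ℤ_[2]) - b) < 4096 * P.Q j
    · obtain ⟨h2, h3⟩ := key _ h1'
      refine ⟨m + a + 8192 * 2 ^ P.n j, ?_, ha3, ?_⟩
      · rw [Int.cast_add, hc]
        push_cast
        have e : (m : ℝ) + a + 8192 * P.Q j - m = a + 8192 * P.Q j := by ring
        rw [e]
        have := abs_add_le (a : ℝ) (8192 * P.Q j)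
        rw [abs_of_pos (show (0:ℝ) < 8192 * P.Q j by linarith)] at this
        linarith
      · have e : x + ((m + a + 8192 * 2 ^ P.n j : ℤ) : ℤ_[2]) =
          x + ((m + a : ℤ) : ℤ_[2]) - b + ((8192 * 2 ^ P.n j : ℤ) : ℤ_[2]) + b := by
            push_cast; ring
        rw [e]
        unfold f
        rw [P.τ_far j (h3 b hbb), add_sub_cancel_right, P.τ_far j h2, sub_zero]
    · push Not at h1 h1'
      refine ⟨m + a, ?_, ha2, ?_⟩
      · push_cast
        rw [add_sub_cancel_left]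
        linarith
      · unfold f
        rw [P.τ_far j h1, P.τ_far j h1', sub_zero]

lemma hit (hb : 3 * b = -1) {j : ℕ} {x : ℤ_[2]} (hU : P.Up b j x) (hD : P.Dn b j x)
    (y : ℤ_[2]) {s : ℝ} (hs : |s| ≤ j) :
    ∃ m : ℤ, (2:ℤ_[2]) ^ P.n j ∣ x + m - y ∧ |P.S b x m - s| ≤ (1 / 2) ^ j := by
  obtain ⟨m2, hm2, hG2⟩ := hU
  obtain ⟨m1, hm1, hG1⟩ := hD
  set C : ℝ := s - ∑ k ∈ Finset.range j, (P.f b k y - P.f b k x) + P.f b j x with hC
  have hCE : |C| ≤ P.E (j + 1) := by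
    have h1 : |∑ k ∈ Finset.range j, (P.f b k y - P.f b k x)| ≤
        ∑ k ∈ Finset.range j, 2 * P.H k := by
      refine (Finset.abs_sum_le_sum_abs _ _).trans (Finset.sum_le_sum fun k _ => ?_)
      have h2 := P.f_abs b k y
      have h3 := P.f_abs b k x
      rw [abs_le] at *
      constructor <;> linarith [h2.1, h2.2, h3.1, h3.2]
    have h4 := P.hsum (j + 1)
    rw [Finset.sum_range_succ] at h4
    rw [← Finset.mul_sum] at h1
    push_cast at h4
    have h5 := P.f_abs b j x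
    have h6 := P.Hpos j
    rw [abs_le] at *
    constructor <;> linarith [h1.1, h1.2, h5.1, h5.2, hs.1, hs.2]
  rw [abs_le] at hCE
  have hσ1 := P.hσ (j + 1)
  have hσ2 := P.hσ (j + 2)
  have hGlip : ∀ m m' : ℤ, |P.G b j x m - P.G b j x m'| ≤
      (2 * P.σ (j + 1) + 2 * P.σ (j + 2)) * |(m : ℝ) - m'| := by
    intro m m'
    have h1 := P.f_lip' b (j + 1) x m m'
    have h2 := P.f_lip' b (j + 2) x m m'
    unfold G
    rw [abs_le] at *
    rw [add_mul]
    constructor <;> linarith [h1.1, h1.2, h2.1, h2.2]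
  obtain ⟨m, hm, hGm⟩ := ivt_int (P.G b j x) (by positivity) hGlip hm1 hm2
    (hG1.trans hCE.1) (hCE.2.trans hG2)
  obtain ⟨m', hm'm, hdvd, hf0⟩ := P.avoid hb j x y m
  have hQ0 := P.Qpos j
  have hQQ := P.hQQ j
  have hQQ' := P.hQQ (j + 1)
  have hm'Q : |(m' : ℝ)| ≤ 2 * P.Q (j + 2) := by
    have h1 : |(m' : ℝ)| ≤ |(m' : ℝ) - m| + |(m : ℝ)| := by
      have := abs_add_le ((m' : ℝ) - m) m
      rwa [sub_add_cancel] at this
    have e : P.Q (j + 1 + 1) = P.Q (j + 2) := rfl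
    linarith
  refine ⟨m', hdvd, ?_⟩
  -- tail
  have htail : |∑' k, (P.f b (k + (j + 3)) (x + m') - P.f b (k + (j + 3)) x)| ≤
      (1 / 2) ^ (j + 39) := by
    have hsumm : HasSum (fun k : ℕ => (1 / 2 : ℝ) ^ (j + 40) * (1 / 2) ^ k)
        ((1 / 2 : ℝ) ^ (j + 40) * 2) := hasSum_geometric_two.mul_left _
    have := tsum_of_norm_bounded hsumm (f := fun k =>
      P.f b (k + (j + 3)) (x + m') - P.f b (k + (j + 3)) x) (by
        intro k
        rw [Real.norm_eq_abs]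
        refine (P.f_lip b (k + (j + 3)) x m').trans ?_
        have e : k + (j + 3) = (k + j + 2) + 1 := by ring
        rw [e]
        have h1 := P.hδ (k + j + 2)
        have h2 : P.Q (j + 2) ≤ P.Q (k + j + 2) := P.Q_mono (by omega)
        have h3 := P.hσ (k + j + 2 + 1)
        calc 2 * P.σ (k + j + 2 + 1) * |(m' : ℝ)|
            ≤ 2 * P.σ (k + j + 2 + 1) * (2 * P.Q (k + j + 2)) :=
              mul_le_mul_of_nonneg_left (hm'Q.trans (by linarith)) (by linarith)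
          _ = 4 * (P.σ (k + j + 2 + 1) * P.Q (k + j + 2)) := by ring
          _ ≤ 4 * (1 / 2) ^ (k + j + 2 + 40) := by linarith
          _ = (1 / 2) ^ (j + 40) * (1 / 2) ^ k := by
              rw [show k + j + 2 + 40 = (j + 40) + k + 2 by ring, pow_add, pow_add]
              norm_num
              ring)
    rw [Real.norm_eq_abs] at this
    refine this.trans (le_of_eq ?_)
    rw [show j + 40 = (j + 39) + 1 by ring, pow_succ]
    ring
  -- the sum
  have hS : P.S b x m' - s = (P.G b j x m' - C) +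
      ∑' k, (P.f b (k + (j + 3)) (x + m') - P.f b (k + (j + 3)) x) := by
    unfold S
    rw [← (P.term_summable b x m').sum_add_tsum_nat_add (j + 3)]
    rw [Finset.sum_range_succ, Finset.sum_range_succ, Finset.sum_range_succ, hf0, hC]
    have : ∑ k ∈ Finset.range j, (P.f b k (x + m') - P.f b k x) =
        ∑ k ∈ Finset.range j, (P.f b k y - P.f b k x) := by
      apply Finset.sum_congr rfl
      intro k hk
      rw [P.f_congr' b (Finset.mem_range.1 hk) hdvd]
    rw [this]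
    unfold G
    ring
  rw [hS]
  have h1 := hGlip m' m
  have hb1 := P.hδ j
  have hb2 := P.hδ (j + 1)
  have hs1 := P.sigma_le j
  have hs2 := P.sigma_le (j + 1)
  have hQ1 : P.Q j ≤ P.Q (j + 1) := P.Q_mono (Nat.le_succ j)
  have hp : (1 / 2 : ℝ) ^ (j + 1 + 40) = (1 / 2) ^ (j + 40) / 2 := by
    rw [show j + 1 + 40 = (j + 40) + 1 by ring, pow_succ]; ring
  have hp2 : (1 / 2 : ℝ) ^ (j + 40) = (1 / 2) ^ j * (1 / 2) ^ 40 := pow_add _ _ _
  have hp3 : (1 / 2 : ℝ) ^ (j + 39) = (1 / 2) ^ j * (1 / 2) ^ 39 := pow_add _ _ _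
  have e2 : P.σ (j + 1 + 1) = P.σ (j + 2) := rfl
  rw [hp, e2] at hb2 hs2
  have h2 : (2 * P.σ (j + 1) + 2 * P.σ (j + 2)) * |(m' : ℝ) - m| ≤
      4 * 8193 * (1 / 2) ^ (j + 40) := by
    calc (2 * P.σ (j + 1) + 2 * P.σ (j + 2)) * |(m' : ℝ) - m|
        ≤ (2 * P.σ (j + 1) + 2 * P.σ (j + 2)) * (8193 * P.Q j) :=
          mul_le_mul_of_nonneg_left hm'm (by positivity)
      _ = 2 * 8193 * (P.σ (j + 1) * P.Q j) + 2 * 8193 * (P.σ (j + 2) * P.Q j) := by ring
      _ ≤ 2 * 8193 * (1 / 2) ^ (j + 40) + 2 * 8193 * ((1 / 2) ^ (j + 40) / 2) := by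
          have := mul_le_mul_of_nonneg_left hQ1 hσ2.le
          linarith
      _ ≤ _ := by
          have : (0:ℝ) < (1 / 2) ^ (j + 40) := by positivity
          linarith
  have hpos : (0:ℝ) < (1 / 2) ^ j := by positivity
  have h3 := abs_add_le (P.G b j x m' - C)
    (∑' k, (P.f b (k + (j + 3)) (x + m') - P.f b (k + (j + 3)) x))
  have h4 : |P.G b j x m' - C| ≤ |P.G b j x m' - P.G b j x m| + |P.G b j x m - C| := by
    have := abs_add_le (P.G b j x m' - P.G b j x m) (P.G b j x m - C)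
    rwa [sub_add_sub_cancel] at this
  have h5 : (1 / 2 : ℝ) ^ 40 ≤ 1 / 1000000 := by norm_num
  have h6 : (1 / 2 : ℝ) ^ 39 ≤ 1 / 1000000 := by norm_num
  have h7 := mul_le_mul_of_nonneg_left h5 hpos.le
  have h8 := mul_le_mul_of_nonneg_left h6 hpos.le
  rw [← hp2] at h7
  rw [← hp3] at h8
  linarith

/-- discreteness over the orbit of zero -/
lemma S_int_le (hb : 3 * b = -1) {K : ℕ} {m : ℤ} (hm : P.Q (K + 1) ≤ 2 * |(m : ℝ)|) :
    P.S b 0 m ≤ - (2 * K) := by
  classical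
  -- the scale of `m`
  have hex : ∃ k, 2 * |(m : ℝ)| < P.Q k := by
    obtain ⟨k, hk⟩ := pow_unbounded_of_one_lt (2 * |(m : ℝ)|) (one_lt_two)
    refine ⟨k, hk.trans_le ?_⟩
    rw [P.hQ]
    exact pow_le_pow_right₀ (by norm_num) (P.hn.le_apply)
  obtain ⟨hk1, hk2⟩ : 2 * |(m : ℝ)| < P.Q (Nat.find hex) ∧
    ∀ i < Nat.find hex, ¬ 2 * |(m : ℝ)| < P.Q i := ⟨Nat.find_spec hex, fun i hi => Nat.find_min hex hi⟩
  have hKk : K + 1 < Nat.find hex := by
    by_contra hcon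
    push Not at hcon
    have := P.Q_mono hcon
    linarith
  obtain ⟨k, hk⟩ : ∃ k, Nat.find hex = k + 1 + 1 := ⟨Nat.find hex - 2, by omega⟩
  rw [hk] at hk1 hk2 hKk
  have hk3 := hk2 (k + 1) (by omega)
  push Not at hk3
  have hK : (K : ℝ) ≤ k := by exact_mod_cast (show K ≤ k by omega)
  -- all terms are nonpositive
  have hf0 : ∀ i, P.f b i 0 = P.H i := by
    intro i
    rw [P.f_near hb, P.τ_zero]
    unfold dd; rw [u_zero]; simp [(P.Qpos (i + 1)).le]
  have hterm : ∀ i, 0 ≤ -(P.f b i (0 + m) - P.f b i 0) := by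
    intro i
    rw [hf0]
    have := (abs_le.1 (P.f_abs b i (0 + m))).2
    linarith
  have hle : -(P.f b (k + 1) (0 + m) - P.f b (k + 1) 0) ≤
      ∑' i, -(P.f b i (0 + m) - P.f b i 0) :=
    (P.term_summable b 0 m).neg.le_tsum (k + 1) (fun i _ => hterm i)
  rw [tsum_neg] at hle
  have hS : P.S b 0 m ≤ P.f b (k + 1) (0 + m) - P.f b (k + 1) 0 := by
    unfold S
    linarith
  refine hS.trans ?_
  rw [hf0, zero_add]
  have hd : P.dd (k + 1) (m : ℤ_[2]) = |(m : ℝ)| := by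
    have := P.dd_add_of (k + 1) (x := 0) (m := m) (by rw [u_zero]; simpa using hk1)
    rw [u_zero, zero_add] at this
    simpa using this
  have hτ : P.f b (k + 1) (m : ℤ_[2]) ≤ P.τ (k + 1) m := by
    unfold f
    linarith [P.τ_nonneg (k + 1) ((m : ℤ_[2]) - b)]
  have hE := P.hsum k
  have hE0 : (0:ℝ) ≤ ∑ i ∈ Finset.range k, P.H i := Finset.sum_nonneg fun i _ => (P.Hpos i).le
  have hτ2 : P.τ (k + 1) (m : ℤ_[2]) ≤ P.H (k + 1) - 2 * P.E k := by
    unfold τ
    apply max_le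
    · have h1 := P.hw (k + 1)
      have h2 := P.hR k
      have h3 : P.σ (k + 1) * (4096 * P.Q (k + 1)) = 4096 * (P.σ (k + 1) * P.Q (k + 1)) := by ring
      rw [h3, h2] at h1
      linarith [P.hE k]
    · rw [hd]
      have h2 := P.hR k
      have h3 := mul_le_mul_of_nonneg_left hk3 (P.hσ (k + 1)).le
      rw [h2] at h3
      linarith
  linarith

end Par

/-- a choice of the parameters -/
noncomputable def par : Par where
  n k := 16 * (k + 3) ^ 2
  Q k := 2 ^ (16 * (k + 3) ^ 2)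
  H k := 2 ^ (8 * k + 20)
  σ k := 2 ^ (8 * k + 8) / 2 ^ (16 * (k + 3) ^ 2)
  E k := 2 ^ (8 * k + 14)
  hQ _ := rfl
  hn := by
    apply strictMono_nat_of_lt_succ
    intro k
    have e : 16 * (k + 1 + 3) ^ 2 = 16 * (k + 3) ^ 2 + (32 * k + 112) := by ring
    rw [e]
    exact Nat.lt_add_of_pos_right (by omega)
  hn2 k := by
    have e : 16 * (k + 3) ^ 2 = 2 + (16 * k ^ 2 + 96 * k + 142) := by ring
    rw [e]
    exact Nat.le_add_right _ _
  hσ k := by positivity
  hE k := by positivity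
  hR k := by
    rw [div_mul_cancel₀ _ (by positivity)]
    ring
  hH k := by ring
  hw k := by
    have : (2:ℝ) ^ (16 * (k + 3) ^ 2) ≠ 0 := by positivity
    rw [mul_comm (4096:ℝ), ← mul_assoc, div_mul_cancel₀ _ this]
    ring
  hQQ k := by
    have h1 : (4096 : ℝ) * 32 = 2 ^ 17 := by norm_num
    rw [h1, ← pow_add]
    apply pow_le_pow_right₀ (by norm_num)
    have e : 16 * (k + 1 + 3) ^ 2 = 17 + 16 * (k + 3) ^ 2 + (32 * k + 95) := by ring
    rw [e]
    exact Nat.le_add_right _ _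
  hsum k := by
    induction k with
    | zero => norm_num
    | succ k ih =>
      rw [Finset.sum_range_succ]
      push_cast
      have h1 : (2:ℝ) ^ (8 * (k + 1) + 14) = 256 * 2 ^ (8 * k + 14) := by ring
      have h2 : (2:ℝ) ^ (8 * k + 20) = 64 * 2 ^ (8 * k + 14) := by ring
      have h3 : (1:ℝ) ≤ 2 ^ (8 * k + 14) := one_le_pow₀ (by norm_num)
      rw [h1, h2]
      linarith
  hδ k := by
    rw [div_mul_eq_mul_div, div_le_iff₀ (by positivity), one_div, inv_pow,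
      ← div_eq_inv_mul, le_div_iff₀ (by positivity), ← pow_add, ← pow_add]
    apply pow_le_pow_right₀ (by norm_num)
    nlinarith

end Pool.Agent.Q180.CY
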