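import Mathlib

/-!
# Centred residues of dyadic integers
-/

namespace Pool.Agent.Q180.CY

open Set

lemma toZ_eq_zero (N : ℕ) (x : ℤ_[2]) : PadicInt.toZModPow N x = 0 ↔ (2:ℤ_[2]) ^ N ∣ x := by
  rw [← RingHom.mem_ker, PadicInt.ker_toZModPow, Ideal.mem_span_singleton]
  simp

lemma dvd_int (N : ℕ) (a : ℤ) : (2:ℤ_[2]) ^ N ∣ (a : ℤ_[2]) ↔ (2:ℤ) ^ N ∣ a := by
  have := PadicInt.pow_p_dvd_int_iff (p := 2) N a
  simpa using this

/-- the centred residue of `x` modulo `2 ^ N` -/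
noncomputable def u (N : ℕ) (x : ℤ_[2]) : ℤ := (PadicInt.toZModPow N x).valMinAbs

lemma u_dvd (N : ℕ) (x : ℤ_[2]) : (2:ℤ_[2]) ^ N ∣ x - (u N x : ℤ_[2]) := by
  rw [← toZ_eq_zero, map_sub, map_intCast]
  rw [u, ZMod.coe_valMinAbs, sub_self]

lemma u_le (N : ℕ) (x : ℤ_[2]) : 2 * |u N x| ≤ 2 ^ N := by
  have h := ZMod.valMinAbs_mem_Ioc (PadicInt.toZModPow N x)
  have h1 : -(((2 ^ N : ℕ)) : ℤ) < u N x * 2 := h.1
  have h2 : u N x * 2 ≤ ((2 ^ N : ℕ) : ℤ) := h.2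
  push_cast at h1 h2
  rcases abs_cases (u N x) with ⟨h3, _⟩ | ⟨h3, _⟩ <;> rw [h3] <;> linarith

lemma dvd_sub_int {N : ℕ} {x : ℤ_[2]} {a b : ℤ} (ha : (2:ℤ_[2]) ^ N ∣ x - (a : ℤ_[2]))
    (hb : (2:ℤ_[2]) ^ N ∣ x - (b : ℤ_[2])) : (2:ℤ) ^ N ∣ a - b := by
  rw [← dvd_int]
  have := dvd_sub hb ha
  have e : x - (b : ℤ_[2]) - (x - (a : ℤ_[2])) = ((a - b : ℤ) : ℤ_[2]) := by push_cast; ring
  rwa [e] at this

lemma u_uniq {N : ℕ} {x : ℤ_[2]} {m : ℤ} (h : (2:ℤ_[2]) ^ N ∣ x - (m : ℤ_[2]))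
    (hm : 2 * |m| < 2 ^ N) : u N x = m := by
  have h1 := dvd_sub_int (u_dvd N x) h
  have h2 := u_le N x
  have h3 : |u N x - m| < 2 ^ N := by
    have := abs_sub (u N x) m
    linarith
  have h4 := Int.eq_zero_of_abs_lt_dvd h1 h3
  linarith

lemma abs_u_le {N : ℕ} {x : ℤ_[2]} {m : ℤ} (h : (2:ℤ_[2]) ^ N ∣ x - (m : ℤ_[2])) :
    |u N x| ≤ |m| := by
  by_cases hm : 2 * |m| < 2 ^ N
  · rw [u_uniq h hm]
  · have := u_le N x
    push Not at hm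
    linarith

lemma u_congr {N : ℕ} {x y : ℤ_[2]} (h : (2:ℤ_[2]) ^ N ∣ x - y) : u N x = u N y := by
  have h1 : PadicInt.toZModPow N x = PadicInt.toZModPow N y := by
    rw [← sub_eq_zero, ← map_sub, toZ_eq_zero]
    exact h
  rw [u, u, h1]

lemma abs_u_add (N : ℕ) (x y : ℤ_[2]) : |u N (x + y)| ≤ |u N x| + |u N y| := by
  refine (abs_u_le (m := u N x + u N y) ?_).trans (abs_add_le _ _)
  have := dvd_add (u_dvd N x) (u_dvd N y)
  have e : x - (u N x : ℤ_[2]) + (y - (u N y : ℤ_[2])) =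
    x + y - ((u N x + u N y : ℤ) : ℤ_[2]) := by push_cast; ring
  rwa [e] at this

lemma abs_u_neg (N : ℕ) (x : ℤ_[2]) : |u N (-x)| = |u N x| := by
  have key : ∀ z : ℤ_[2], |u N (-z)| ≤ |u N z| := by
    intro z
    rw [← abs_neg (u N z)]
    apply abs_u_le
    have := (dvd_neg.2 (u_dvd N z))
    have e : -(z - (u N z : ℤ_[2])) = -z - ((-u N z : ℤ) : ℤ_[2]) := by push_cast; ring
    rwa [e] at this
  apply le_antisymm (key x)
  have := key (-x)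
  rwa [neg_neg] at this

lemma abs_u_sub (N : ℕ) (x y : ℤ_[2]) : |u N (x - y)| ≤ |u N x| + |u N y| := by
  have := abs_u_add N x (-y)
  rwa [abs_u_neg, ← sub_eq_add_neg] at this

lemma abs_u_int (N : ℕ) (m : ℤ) : |u N (m : ℤ_[2])| ≤ |m| := abs_u_le (by simp)

lemma abs_u_add_int (N : ℕ) (x : ℤ_[2]) (m : ℤ) : |u N (x + m)| ≤ |u N x| + |m| :=
  (abs_u_add N x m).trans (by linarith [abs_u_int N m])

lemma abs_u_add_int' (N : ℕ) (x : ℤ_[2]) (m : ℤ) : |u N x| ≤ |u N (x + m)| + |m| := by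
  have := abs_u_add_int N (x + m) (-m)
  rw [abs_neg] at this
  have e : x + (m : ℤ_[2]) + ((-m : ℤ) : ℤ_[2]) = x := by push_cast; ring
  rwa [e] at this

lemma u_add_int {N : ℕ} {x : ℤ_[2]} {m : ℤ} (hm : 2 * |u N x + m| < 2 ^ N) :
    u N (x + m) = u N x + m := by
  apply u_uniq _ hm
  have := u_dvd N x
  have e : x + (m : ℤ_[2]) - ((u N x + m : ℤ) : ℤ_[2]) = x - (u N x : ℤ_[2]) := by
    push_cast; ring
  rwa [e]

lemma u_zero (N : ℕ) : u N 0 = 0 := by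
  apply u_uniq (by simp)
  simp

/-- a dyadic integer with `3 b = -1` -/
lemma exists_b : ∃ b : ℤ_[2], 3 * b = -1 := by
  have h : IsUnit (3 : ℤ_[2]) := by
    rw [PadicInt.isUnit_iff]
    have := (PadicInt.norm_natCast_eq_one_iff (p := 2) (n := 3)).2 (by norm_num)
    simpa using this
  obtain ⟨w, hw⟩ := h
  refine ⟨-((w⁻¹ : ℤ_[2]ˣ) : ℤ_[2]), ?_⟩
  rw [← hw]
  simp

lemma u_b {b : ℤ_[2]} (hb : 3 * b = -1) {N : ℕ} (hN : 2 ≤ N) : 2 ^ N ≤ 4 * |u N b| := by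
  have h1 := u_dvd N b
  have h2 : (2:ℤ) ^ N ∣ 3 * u N b + 1 := by
    rw [← dvd_int]
    have h3 := (Dvd.dvd.mul_left h1 (-3))
    have e : (-3 : ℤ_[2]) * (b - (u N b : ℤ_[2])) = ((3 * u N b + 1 : ℤ) : ℤ_[2]) := by
      push_cast
      linear_combination (-1 : ℤ_[2]) * hb
    rwa [e] at h3
  have h3 : 3 * u N b + 1 ≠ 0 := by omega
  have h4 : (2:ℤ) ^ N ≤ |3 * u N b + 1| := by
    have := Int.le_of_dvd (abs_pos.2 h3) ((dvd_abs _ _).2 h2)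
    exact this
  have h5 : |3 * u N b + 1| ≤ 3 * |u N b| + 1 := by
    have := abs_add_le (3 * u N b) 1
    rw [abs_mul] at this
    simpa using this
  have h6 : (4:ℤ) ≤ 2 ^ N := by
    calc (4:ℤ) = 2 ^ 2 := by norm_num
      _ ≤ 2 ^ N := pow_le_pow_right₀ (by norm_num) hN
  linarith

lemma u_continuous (N : ℕ) : Continuous (u N) := by
  rw [continuous_iff_continuousAt]
  intro x
  have : ∀ᶠ y in nhds x, u N y = u N x := by
    rw [Metric.eventually_nhds_iff]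
    refine ⟨2 ^ (-N : ℤ), by positivity, ?_⟩
    intro y hy
    rw [dist_eq_norm] at hy
    apply u_congr
    have h1 := (PadicInt.norm_le_pow_iff_mem_span_pow (p := 2) (y - x) N).1 (by
      simpa using hy.le)
    rw [Ideal.mem_span_singleton] at h1
    simpa using h1
  exact ContinuousAt.congr continuousAt_const (this.mono fun y hy => hy.symm)

lemma norm_le_of_dvd {N : ℕ} {x : ℤ_[2]} (h : (2:ℤ_[2]) ^ N ∣ x) : ‖x‖ ≤ 2 ^ (-N : ℤ) := by
  have h1 := (PadicInt.norm_le_pow_iff_mem_span_pow (p := 2) x N).2 (by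
    rw [Ideal.mem_span_singleton]; simpa using h)
  simpa using h1

end Pool.Agent.Q180.CY
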