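import Pool.Agent.Q180.CY.Dist

/-!
# The tents and the dichotomy
-/

namespace Pool.Agent.Q180.CY

open Set

/-- The parameters. -/
structure Par where
  n : ℕ → ℕ
  Q : ℕ → ℝ
  H : ℕ → ℝ
  σ : ℕ → ℝ
  E : ℕ → ℝ
  hQ : ∀ k, Q k = 2 ^ n k
  hn : StrictMono n
  hn2 : ∀ k, 2 ≤ n k
  hσ : ∀ k, 0 < σ k
  hE : ∀ k, 0 < E k
  hR : ∀ k, σ (k + 1) * Q (k + 1) = 4 * E k
  hH : ∀ k, H k = 64 * E k
  hw : ∀ k, σ k * (4096 * Q k) = H k
  hQQ : ∀ k, 4096 * 32 * Q k ≤ Q (k + 1)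
  hsum : ∀ k : ℕ, (k : ℝ) + 2 * ∑ i ∈ Finset.range k, H i ≤ E k
  hδ : ∀ k, σ (k + 1) * Q k ≤ (1 / 2) ^ (k + 40)

namespace Par

variable (P : Par)

lemma Qpos (k : ℕ) : 0 < P.Q k := by rw [P.hQ]; positivity

lemma Hpos (k : ℕ) : 0 < P.H k := by rw [P.hH]; linarith [P.hE k]

lemma Q_one (k : ℕ) : 1 ≤ P.Q k := by rw [P.hQ]; exact one_le_pow₀ (by norm_num)

lemma cast_pow (k : ℕ) : (((2:ℤ) ^ P.n k : ℤ) : ℝ) = P.Q k := by rw [P.hQ]; push_cast; rfl

/-- distance of `x` to the multiples of `2 ^ n (k+1)` -/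
noncomputable def dd (k : ℕ) (x : ℤ_[2]) : ℝ := |(u (P.n (k + 1)) x : ℝ)|

lemma dd_nonneg (k : ℕ) (x : ℤ_[2]) : 0 ≤ P.dd k x := abs_nonneg _

lemma dd_eq (k : ℕ) (x : ℤ_[2]) : P.dd k x = ((|u (P.n (k + 1)) x| : ℤ) : ℝ) := by
  rw [dd, Int.cast_abs]

/-- the tent -/
noncomputable def τ (k : ℕ) (x : ℤ_[2]) : ℝ := max 0 (P.H k - P.σ k * P.dd k x)

lemma τ_nonneg (k : ℕ) (x : ℤ_[2]) : 0 ≤ P.τ k x := le_max_left _ _

lemma τ_le (k : ℕ) (x : ℤ_[2]) : P.τ k x ≤ P.H k := by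
  apply max_le (P.Hpos k).le
  have := mul_nonneg (P.hσ k).le (P.dd_nonneg k x)
  linarith

lemma dd_le_half (k : ℕ) (x : ℤ_[2]) : 2 * P.dd k x ≤ P.Q (k + 1) := by
  rw [dd_eq, ← P.cast_pow]
  exact_mod_cast u_le (P.n (k + 1)) x

lemma dd_add (k : ℕ) (x y : ℤ_[2]) : P.dd k (x + y) ≤ P.dd k x + P.dd k y := by
  simp only [dd_eq]
  exact_mod_cast abs_u_add (P.n (k + 1)) x y

lemma dd_sub (k : ℕ) (x y : ℤ_[2]) : P.dd k (x - y) ≤ P.dd k x + P.dd k y := by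
  simp only [dd_eq]
  exact_mod_cast abs_u_sub (P.n (k + 1)) x y

lemma dd_neg (k : ℕ) (x : ℤ_[2]) : P.dd k (-x) = P.dd k x := by
  simp only [dd_eq]
  exact_mod_cast abs_u_neg (P.n (k + 1)) x

lemma dd_int (k : ℕ) (m : ℤ) : P.dd k (m : ℤ_[2]) ≤ |(m : ℝ)| := by
  rw [dd_eq, ← Int.cast_abs]
  exact_mod_cast abs_u_int (P.n (k + 1)) m

lemma dd_add_int (k : ℕ) (x : ℤ_[2]) (m : ℤ) : |P.dd k (x + m) - P.dd k x| ≤ |(m : ℝ)| := by
  have h1 := (P.dd_add k x m).trans (add_le_add_right (P.dd_int k m) _)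
  have h2 := (P.dd_sub k (x + m) m).trans (add_le_add_right (P.dd_int k m) _)
  rw [add_sub_cancel_right] at h2
  rw [abs_le]
  constructor <;> linarith

lemma τ_lip (k : ℕ) (x : ℤ_[2]) (m : ℤ) : |P.τ k (x + m) - P.τ k x| ≤ P.σ k * |(m : ℝ)| := by
  unfold τ
  calc |max 0 (P.H k - P.σ k * P.dd k (x + m)) - max 0 (P.H k - P.σ k * P.dd k x)|
      ≤ |(P.H k - P.σ k * P.dd k (x + m)) - (P.H k - P.σ k * P.dd k x)| := by
        exact (abs_max_sub_max_le_max _ _ _ _).trans (by simp)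
    _ = P.σ k * |P.dd k (x + m) - P.dd k x| := by
        rw [← abs_of_pos (P.hσ k), ← abs_mul, abs_sub_comm, abs_of_pos (P.hσ k)]
        congr 1
        ring
    _ ≤ P.σ k * |(m : ℝ)| := mul_le_mul_of_nonneg_left (P.dd_add_int k x m) (P.hσ k).le

lemma τ_neg (k : ℕ) (x : ℤ_[2]) : P.τ k (-x) = P.τ k x := by
  unfold τ; rw [P.dd_neg]

lemma τ_zero (k : ℕ) : P.τ k 0 = P.H k := by
  unfold τ dd
  rw [u_zero]
  simp [(P.Hpos k).le]

lemma τ_far (k : ℕ) {x : ℤ_[2]} (h : 4096 * P.Q k ≤ P.dd k x) : P.τ k x = 0 := by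
  unfold τ
  apply max_eq_left
  have := mul_le_mul_of_nonneg_left h (P.hσ k).le
  rw [P.hw] at this
  linarith

lemma τ_congr (k : ℕ) {x y : ℤ_[2]} (h : (2:ℤ_[2]) ^ P.n (k + 1) ∣ x - y) :
    P.τ k x = P.τ k y := by
  unfold τ dd
  rw [u_congr h]

variable (b : ℤ_[2])

/-- the function: a positive tent at `0`, a negative tent at `b` -/
noncomputable def f (k : ℕ) (x : ℤ_[2]) : ℝ := P.τ k x - P.τ k (x - b)

lemma f_abs (k : ℕ) (x : ℤ_[2]) : |P.f b k x| ≤ P.H k := by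
  unfold f
  rw [abs_le]
  constructor <;> linarith [P.τ_nonneg k x, P.τ_le k x, P.τ_nonneg k (x - b), P.τ_le k (x - b)]

lemma f_lip (k : ℕ) (x : ℤ_[2]) (m : ℤ) :
    |P.f b k (x + m) - P.f b k x| ≤ 2 * P.σ k * |(m : ℝ)| := by
  unfold f
  have h1 := P.τ_lip k x m
  have h2 := P.τ_lip k (x - b) m
  have e : x + (m : ℤ_[2]) - b = x - b + m := by ring
  rw [e]
  rw [abs_le] at *
  constructor <;> linarith [h1.1, h1.2, h2.1, h2.2]

lemma f_lip' (k : ℕ) (x : ℤ_[2]) (m m' : ℤ) :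
    |P.f b k (x + m) - P.f b k (x + m')| ≤ 2 * P.σ k * |(m : ℝ) - m'| := by
  have := P.f_lip b k (x + m') (m - m')
  have e : x + (m' : ℤ_[2]) + ((m - m' : ℤ) : ℤ_[2]) = x + m := by push_cast; ring
  rw [e] at this
  push_cast at this
  exact this

lemma f_refl (k : ℕ) (x : ℤ_[2]) : P.f b k (b - x) = - P.f b k x := by
  unfold f
  have e1 : b - x - b = -x := by ring
  have e2 : b - x = -(x - b) := by ring
  rw [e1, P.τ_neg, e2, P.τ_neg]
  ring

lemma f_congr (k : ℕ) {x y : ℤ_[2]} (h : (2:ℤ_[2]) ^ P.n (k + 1) ∣ x - y) :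
    P.f b k x = P.f b k y := by
  unfold f
  rw [P.τ_congr k h, P.τ_congr k (x := x - b) (y := y - b) (by simpa using h)]

lemma f_congr' {j k : ℕ} (hk : k < j) {x y : ℤ_[2]} (h : (2:ℤ_[2]) ^ P.n j ∣ x - y) :
    P.f b k x = P.f b k y :=
  P.f_congr b k ((pow_dvd_pow _ (P.hn.monotone (Nat.succ_le_of_lt hk))).trans h)

variable {b}

lemma dd_b (hb : 3 * b = -1) (k : ℕ) : P.Q (k + 1) ≤ 4 * P.dd k b := by
  rw [dd_eq, ← P.cast_pow]
  exact_mod_cast u_b hb (P.hn2 (k + 1))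

/-- near `0` the negative tent is absent -/
lemma f_near (hb : 3 * b = -1) (k : ℕ) {x : ℤ_[2]} (hx : 8 * P.dd k x ≤ P.Q (k + 1)) :
    P.f b k x = P.τ k x := by
  unfold f
  rw [P.τ_far k (x := x - b), sub_zero]
  have h1 := P.dd_b hb k
  have h2 : P.dd k b ≤ P.dd k x + P.dd k (x - b) := by
    have := P.dd_sub k x (x - b)
    rwa [sub_sub_cancel] at this
  have h3 := P.hQQ k
  linarith [P.Qpos k]

/-- near `b` the positive tent is absent -/
lemma f_near_b (hb : 3 * b = -1) (k : ℕ) {x : ℤ_[2]} (hx : 8 * P.dd k (x - b) ≤ P.Q (k + 1)) :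
    P.f b k x = - P.τ k (x - b) := by
  unfold f
  rw [P.τ_far k (x := x), zero_sub]
  have h1 := P.dd_b hb k
  have h2 : P.dd k b ≤ P.dd k x + P.dd k (x - b) := by
    have := P.dd_sub k x (x - b)
    rwa [sub_sub_cancel] at this
  have h3 := P.hQQ k
  linarith [P.Qpos k]

variable (b)

/-- the increment of the two main functions at scale `j` -/
noncomputable def G (j : ℕ) (x : ℤ_[2]) (m : ℤ) : ℝ :=
  (P.f b (j + 1) (x + m) + P.f b (j + 2) (x + m)) - (P.f b (j + 1) x + P.f b (j + 2) x)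

def Up (j : ℕ) (x : ℤ_[2]) : Prop := ∃ m : ℤ, |(m : ℝ)| ≤ P.Q (j + 2) ∧ P.E (j + 1) ≤ P.G b j x m

def Dn (j : ℕ) (x : ℤ_[2]) : Prop := ∃ m : ℤ, |(m : ℝ)| ≤ P.Q (j + 2) ∧ P.G b j x m ≤ - P.E (j + 1)

lemma G_refl (j : ℕ) (x : ℤ_[2]) (m : ℤ) : P.G b j (b - x) (-m) = - P.G b j x m := by
  unfold G
  have e : b - x + ((-m : ℤ) : ℤ_[2]) = b - (x + m) := by push_cast; ring
  rw [e, P.f_refl, P.f_refl, P.f_refl, P.f_refl]
  ring

lemma Up_refl (j : ℕ) (x : ℤ_[2]) : P.Up b j (b - x) ↔ P.Dn b j x := by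
  constructor
  · rintro ⟨m, hm, h⟩
    refine ⟨-m, by push_cast; rwa [abs_neg], ?_⟩
    have := P.G_refl b j x (-m)
    rw [neg_neg] at this
    linarith
  · rintro ⟨m, hm, h⟩
    refine ⟨-m, by push_cast; rwa [abs_neg], ?_⟩
    rw [P.G_refl]
    linarith

variable {b}

/-- if one cannot go up at scale `j` one is near the top of the positive tent -/
lemma near_of_not_up (hb : 3 * b = -1) {j : ℕ} {x : ℤ_[2]} (h : ¬ P.Up b j x) :
    2 * P.dd (j + 1) x < 4096 * P.Q (j + 1) := by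
  by_contra hcon
  push Not at hcon
  apply h
  refine ⟨- u (P.n (j + 2)) x, ?_, ?_⟩
  · have := P.dd_le_half (j + 1) x
    have h0 := P.dd_nonneg (j + 1) x
    unfold dd at this h0
    push_cast
    rw [abs_neg]
    linarith
  · unfold G
    have hz : P.f b (j + 1) (x + ((- u (P.n (j + 2)) x : ℤ) : ℤ_[2])) = P.H (j + 1) := by
      rw [P.f_congr b (j + 1) (y := 0), P.f_near hb (j + 1), P.τ_zero]
      · unfold dd; rw [u_zero]; simp [(P.Qpos (j + 1 + 1)).le]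
      · have := u_dvd (P.n (j + 2)) x
        have e : x + ((- u (P.n (j + 2)) x : ℤ) : ℤ_[2]) - 0 = x - (u (P.n (j + 2)) x : ℤ_[2]) := by
          push_cast; ring
        rwa [e]
    rw [hz]
    have hl := P.f_lip b (j + 2) x (- u (P.n (j + 2)) x)
    have h2 : |((- u (P.n (j + 2)) x : ℤ) : ℝ)| ≤ P.Q (j + 2) / 2 := by
      have := P.dd_le_half (j + 1) x
      unfold dd at this
      push_cast
      rw [abs_neg]
      linarith
    have h3 : 2 * P.σ (j + 2) * |((- u (P.n (j + 2)) x : ℤ) : ℝ)| ≤ 4 * P.E (j + 1) := by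
      rw [← P.hR (j + 1)]
      have := mul_le_mul_of_nonneg_left h2 (P.hσ (j + 2)).le
      have e : P.σ (j + 2) * (P.Q (j + 2) / 2) = P.σ (j + 1 + 1) * P.Q (j + 1 + 1) / 2 := by ring
      rw [e] at this
      linarith
    have h4 := (abs_le.1 (hl.trans h3)).1
    have h5 : P.f b (j + 1) x ≤ P.H (j + 1) / 2 := by
      have h6 : P.f b (j + 1) x ≤ P.τ (j + 1) x := by
        unfold f
        linarith [P.τ_nonneg (j + 1) (x - b)]
      apply h6.trans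
      unfold τ
      apply max_le (by linarith [P.Hpos (j + 1)])
      have h7 := mul_le_mul_of_nonneg_left hcon (P.hσ (j + 1)).le
      rw [P.hw] at h7
      linarith
    rw [P.hH (j + 1)] at *
    linarith [P.hE (j + 1)]

lemma near_of_not_dn (hb : 3 * b = -1) {j : ℕ} {x : ℤ_[2]} (h : ¬ P.Dn b j x) :
    2 * P.dd (j + 1) (x - b) < 4096 * P.Q (j + 1) := by
  rw [← P.Up_refl] at h
  have := P.near_of_not_up hb h
  have e : b - x = -(x - b) := by ring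
  rwa [e, P.dd_neg] at this

lemma dd_add_of (k : ℕ) {x : ℤ_[2]} {m : ℤ}
    (hm : 2 * |(u (P.n (k + 1)) x : ℝ) + m| < P.Q (k + 1)) :
    P.dd k (x + m) = |(u (P.n (k + 1)) x : ℝ) + m| := by
  have : u (P.n (k + 1)) (x + m) = u (P.n (k + 1)) x + m := by
    apply u_add_int
    have e : (((2 * |u (P.n (k + 1)) x + m| : ℤ)) : ℝ) < ((2 ^ P.n (k + 1) : ℤ) : ℝ) := by
      rw [P.cast_pow]
      push_cast
      exact hm
    exact_mod_cast e
  unfold dd
  rw [this]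
  push_cast
  rfl

lemma τ_of_le (k : ℕ) {x : ℤ_[2]} (h : P.dd k x ≤ 4096 * P.Q k) :
    P.τ k x = P.H k - P.σ k * P.dd k x := by
  unfold τ
  apply max_eq_right
  have := mul_le_mul_of_nonneg_left h (P.hσ k).le
  rw [P.hw] at this
  linarith

/-- exclusion: near the bottom at the next scale one can go up at this scale -/
lemma up_of_not_dn_succ (hb : 3 * b = -1) {j : ℕ} {x : ℤ_[2]} (h : ¬ P.Dn b (j + 1) x) :
    P.Up b j x := by
  have hnear := P.near_of_not_dn hb h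
  have hnear' : 2 * |(u (P.n (j + 1 + 1 + 1)) (x - b) : ℝ)| < 4096 * P.Q (j + 1 + 1) := hnear
  -- choose the direction away from `b`
  obtain ⟨e, he, hee⟩ : ∃ e : ℤ, |e| = 1 ∧
      |(u (P.n (j + 1 + 1 + 1)) (x - b) : ℝ) + ((e * 2 ^ P.n (j + 2) : ℤ) : ℝ)| =
        |(u (P.n (j + 1 + 1 + 1)) (x - b) : ℝ)| + P.Q (j + 2) := by
    rcases le_total 0 (u (P.n (j + 1 + 1 + 1)) (x - b) : ℝ) with h0 | h0
    · refine ⟨1, by simp, ?_⟩
      rw [one_mul, P.cast_pow, abs_of_nonneg h0,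
        abs_of_nonneg (add_nonneg h0 (P.Qpos _).le)]
    · refine ⟨-1, by simp, ?_⟩
      rw [Int.cast_mul, P.cast_pow, abs_of_nonpos h0]
      rw [abs_of_nonpos]
      · push_cast; ring
      · push_cast; linarith [P.Qpos (j + 2)]
  have hQQ := P.hQQ (j + 2)
  have hQ0 := P.Qpos (j + 2)
  refine ⟨e * 2 ^ P.n (j + 2), ?_, ?_⟩
  · rw [Int.cast_mul, P.cast_pow, abs_mul, abs_of_pos hQ0, ← Int.cast_abs, he]
    simp
  · unfold G
    have h1 : P.f b (j + 1) (x + ((e * 2 ^ P.n (j + 2) : ℤ) : ℤ_[2])) = P.f b (j + 1) x := by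
      apply P.f_congr
      push_cast
      rw [add_sub_cancel_left]
      exact Dvd.intro_left _ rfl
    have hd : P.dd (j + 2) (x - b + ((e * 2 ^ P.n (j + 2) : ℤ) : ℤ_[2])) =
        P.dd (j + 2) (x - b) + P.Q (j + 2) := by
      rw [P.dd_add_of, hee]
      · rfl
      · rw [hee]
        have : P.Q (j + 2 + 1) = P.Q (j + 1 + 1 + 1) := rfl
        linarith
    have e2 : x + ((e * 2 ^ P.n (j + 2) : ℤ) : ℤ_[2]) - b =
        x - b + ((e * 2 ^ P.n (j + 2) : ℤ) : ℤ_[2]) := by ring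
    have hnear2 : 2 * P.dd (j + 2) (x - b) < 4096 * P.Q (j + 2) := hnear
    have h2 : P.f b (j + 2) x = - P.τ (j + 2) (x - b) :=
      P.f_near_b hb (j + 2) (by linarith)
    have h3 : P.f b (j + 2) (x + ((e * 2 ^ P.n (j + 2) : ℤ) : ℤ_[2])) =
        - P.τ (j + 2) (x - b + ((e * 2 ^ P.n (j + 2) : ℤ) : ℤ_[2])) := by
      rw [P.f_near_b hb (j + 2), e2]
      rw [e2, hd]
      linarith
    rw [h1, h2, h3, P.τ_of_le (j + 2) (x := x - b) (by linarith [P.dd_nonneg (j + 2) (x - b)]),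
      P.τ_of_le (j + 2) (x := x - b + ((e * 2 ^ P.n (j + 2) : ℤ) : ℤ_[2])) (by
        rw [hd]; linarith), hd]
    have h4 := P.hR (j + 1)
    have h5 : P.σ (j + 2) * (P.dd (j + 2) (x - b) + P.Q (j + 2)) =
      P.σ (j + 2) * P.dd (j + 2) (x - b) + P.σ (j + 1 + 1) * P.Q (j + 1 + 1) := by ring
    rw [h5, h4]
    linarith [P.hE (j + 1)]

lemma dn_of_not_up_succ (hb : 3 * b = -1) {j : ℕ} {x : ℤ_[2]} (h : ¬ P.Up b (j + 1) x) :
    P.Dn b j x := by
  rw [← P.Up_refl]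
  apply P.up_of_not_dn_succ hb
  rw [← P.Up_refl, sub_sub_cancel]
  exact h

/-- stability of the centred residues -/
lemma stable (hb : 3 * b = -1) {j : ℕ} {x : ℤ_[2]} (h : ¬ P.Up b j x) (h' : ¬ P.Up b (j + 1) x) :
    u (P.n (j + 3)) x = u (P.n (j + 2)) x := by
  by_contra hne
  apply h
  have hn1 := P.near_of_not_up hb h
  have hn2 := P.near_of_not_up hb h'
  set v : ℤ := u (P.n (j + 2)) x with hv
  set U : ℤ := u (P.n (j + 3)) x with hU
  have hn1' : 2 * |(v : ℝ)| < 4096 * P.Q (j + 1) := hn1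
  have hn2' : 2 * |(U : ℝ)| < 4096 * P.Q (j + 2) := hn2
  have hQQ := P.hQQ (j + 2)
  have hQQ1 := P.hQQ (j + 1)
  have hQ0 := P.Qpos (j + 2)
  have hQ1 := P.Qpos (j + 1)
  have hdvd : (2:ℤ) ^ P.n (j + 2) ∣ U - v := by
    apply dvd_sub_int (x := x) _ (u_dvd _ _)
    exact (pow_dvd_pow _ (P.hn.monotone (Nat.le_succ _))).trans (u_dvd _ _)
  obtain ⟨a, ha⟩ := hdvd
  have ha0 : a ≠ 0 := by
    rintro rfl
    apply hne
    linarith
  have haR : (U : ℝ) = v + P.Q (j + 2) * a := by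
    have : (U : ℝ) - v = ((2 ^ P.n (j + 2) : ℤ) : ℝ) * a := by exact_mod_cast ha
    rw [P.cast_pow] at this
    linarith
  -- move one period towards `0`
  obtain ⟨e, he, hee⟩ : ∃ e : ℤ, |e| = 1 ∧
      |(U : ℝ) + ((e * 2 ^ P.n (j + 2) : ℤ) : ℝ)| + P.Q (j + 2) / 2 ≤ |(U : ℝ)| := by
    have hv' := abs_le.1 (le_refl |(v : ℝ)|)
    rcases lt_or_gt_of_ne ha0 with h0 | h0
    · refine ⟨1, by simp, ?_⟩
      rw [one_mul, P.cast_pow]
      have ha1 : (a : ℝ) ≤ -1 := by exact_mod_cast (show a ≤ -1 by omega)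
      have hU' : (U : ℝ) ≤ v - P.Q (j + 2) := by rw [haR]; nlinarith
      have h7 := neg_abs_le (U : ℝ)
      have h8 : |(U : ℝ)| = - U := abs_of_nonpos (by linarith [hv'.2])
      rw [h8]
      rcases abs_cases ((U : ℝ) + P.Q (j + 2)) with ⟨h9, _⟩ | ⟨h9, _⟩ <;> rw [h9] <;>
        linarith [hv'.1, hv'.2]
    · refine ⟨-1, by simp, ?_⟩
      rw [Int.cast_mul, P.cast_pow]
      push_cast
      have ha1 : (1 : ℝ) ≤ a := by exact_mod_cast (show 1 ≤ a by omega)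
      have hU' : (v : ℝ) + P.Q (j + 2) ≤ U := by rw [haR]; nlinarith
      have h8 : |(U : ℝ)| = U := abs_of_nonneg (by linarith [hv'.1])
      rw [h8]
      rcases abs_cases ((U : ℝ) + -1 * P.Q (j + 2)) with ⟨h9, _⟩ | ⟨h9, _⟩ <;> rw [h9] <;>
        linarith [hv'.1, hv'.2]
  refine ⟨e * 2 ^ P.n (j + 2), ?_, ?_⟩
  · rw [Int.cast_mul, P.cast_pow, abs_mul, abs_of_pos hQ0, ← Int.cast_abs, he]
    simp
  · unfold G
    have h1 : P.f b (j + 1) (x + ((e * 2 ^ P.n (j + 2) : ℤ) : ℤ_[2])) = P.f b (j + 1) x := by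
      apply P.f_congr
      push_cast
      rw [add_sub_cancel_left]
      exact Dvd.intro_left _ rfl
    have hU0 := abs_nonneg ((U : ℝ) + ((e * 2 ^ P.n (j + 2) : ℤ) : ℝ))
    have hd : P.dd (j + 2) (x + ((e * 2 ^ P.n (j + 2) : ℤ) : ℤ_[2])) =
        |(U : ℝ) + ((e * 2 ^ P.n (j + 2) : ℤ) : ℝ)| := by
      apply P.dd_add_of
      have : P.Q (j + 2 + 1) = P.Q (j + 3) := rfl
      rw [← hU]
      linarith
    have hn3 : 2 * P.dd (j + 2) x < 4096 * P.Q (j + 2) := hn2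
    have hdU : P.dd (j + 2) x = |(U : ℝ)| := rfl
    have h2 : P.f b (j + 2) x = P.τ (j + 2) x := P.f_near hb (j + 2) (by linarith)
    have h3 : P.f b (j + 2) (x + ((e * 2 ^ P.n (j + 2) : ℤ) : ℤ_[2])) =
        P.τ (j + 2) (x + ((e * 2 ^ P.n (j + 2) : ℤ) : ℤ_[2])) := by
      apply P.f_near hb (j + 2)
      rw [hd]
      linarith
    rw [h1, h2, h3, P.τ_of_le (j + 2) (x := x) (by linarith),
      P.τ_of_le (j + 2) (x := x + ((e * 2 ^ P.n (j + 2) : ℤ) : ℤ_[2])) (by rw [hd]; linarith),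
      hd, hdU]
    have h4 := P.hR (j + 1)
    have h6 := mul_le_mul_of_nonneg_left hee (P.hσ (j + 2)).le
    have h5 : P.σ (j + 2) * (|(U : ℝ) + ((e * 2 ^ P.n (j + 2) : ℤ) : ℝ)| + P.Q (j + 2) / 2) =
      P.σ (j + 2) * |(U : ℝ) + ((e * 2 ^ P.n (j + 2) : ℤ) : ℝ)| +
        P.σ (j + 1 + 1) * P.Q (j + 1 + 1) / 2 := by ring
    rw [h5, h4] at h6
    linarith [P.hE (j + 1)]

/-- if one cannot go up at all large scales the point is an integer -/
lemma int_of_not_up (hb : 3 * b = -1) {x : ℤ_[2]} {j0 : ℕ} (h : ∀ j, j0 ≤ j → ¬ P.Up b j x) :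
    ∃ m : ℤ, x = m := by
  have hst : ∀ i, u (P.n (j0 + 2 + i)) x = u (P.n (j0 + 2)) x := by
    intro i
    induction i with
    | zero => rfl
    | succ i ih =>
      rw [← ih]
      have := P.stable hb (h (j0 + i) (by omega)) (h (j0 + i + 1) (by omega))
      have e1 : j0 + i + 3 = j0 + 2 + (i + 1) := by ring
      have e2 : j0 + i + 2 = j0 + 2 + i := by ring
      rwa [e1, e2] at this
  refine ⟨u (P.n (j0 + 2)) x, ?_⟩
  rw [← PadicInt.ext_of_toZModPow]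
  intro N
  rw [← sub_eq_zero, ← map_sub, toZ_eq_zero]
  have h1 := u_dvd (P.n (j0 + 2 + N)) x
  rw [hst N] at h1
  refine (pow_dvd_pow _ ?_).trans h1
  exact (P.hn.le_apply (x := N)).trans (P.hn.monotone (by omega))

/-- the dichotomy -/
lemma dichotomy (hb : 3 * b = -1) {x : ℤ_[2]} (hx0 : ∀ m : ℤ, x ≠ m) (hx1 : ∀ m : ℤ, x ≠ b + m)
    (j0 : ℕ) : ∃ j, j0 ≤ j ∧ P.Up b j x ∧ P.Dn b j x := by
  by_contra hcon
  push Not at hcon
  by_cases h0 : P.Up b j0 x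
  · -- always not Dn
    have : ∀ i, ¬ P.Dn b (j0 + i) x := by
      intro i
      induction i with
      | zero => exact hcon j0 le_rfl h0
      | succ i ih =>
        have h1 : P.Up b (j0 + i + 1) x := by
          by_contra h2
          exact ih (P.dn_of_not_up_succ hb h2)
        exact hcon (j0 + (i + 1)) (by omega) h1
    obtain ⟨m, hm⟩ := P.int_of_not_up (b := b) hb (x := b - x) (j0 := j0) (by
      intro j hj
      obtain ⟨i, rfl⟩ := Nat.exists_eq_add_of_le hj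
      rw [P.Up_refl]
      exact this i)
    apply hx1 (-m)
    push_cast
    rw [← hm]
    ring
  · have : ∀ i, ¬ P.Up b (j0 + i) x := by
      intro i
      induction i with
      | zero => exact h0
      | succ i ih =>
        intro h1
        have h2 := hcon (j0 + (i + 1)) (by omega) h1
        exact ih (P.up_of_not_dn_succ hb h2)
    obtain ⟨m, hm⟩ := P.int_of_not_up (b := b) hb (x := x) (j0 := j0) (by
      intro j hj
      obtain ⟨i, rfl⟩ := Nat.exists_eq_add_of_le hj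
      exact this i)
    exact hx0 m hm

end Par

end Pool.Agent.Q180.CY
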